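import Mathlib
import Pool.Agent.N178.BL.Defs

/-!
# Abel–Jacobi maps on the Chow groups of abelian varieties over a number field: known properties
-/

namespace Pool.Agent.N178.AJ

open Module Pool.Agent.Y90 Pool.Agent.R915 Pool.Agent.N178.BL
open Pool.Agent.W546.GHC (complexify typeForms)

/-- `φ` is the component of degree `m` of `ψ`. -/
def Part {X : AV} (m : ℕ) (φ ψ : HT X) : Prop := φ m = ψ m ∧ ∀ l, l ≠ m → φ l = 0

/-- Known properties of the Chow groups of abelian varieties over an algebraically closed subfield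
`k` of `ℂ`, for instance the algebraic closure of a number field `K`, and of an Abel–Jacobi map with
rational coefficients on homologically trivial cycles: the `p`-adic one, or the complex one. The
cycles on `X` are the correspondences from the point `O` to `X`. -/
structure AbelJacobi (C : ChowTheory) (O : AV) where
  /-- `X` is defined over `k` -/
  Def : AV → Prop
  /-- the correspondence is defined over `k` -/
  Rat : ∀ {X Y}, C.Co X Y → Prop
  /-- `Triv i z`: the cycle `z` on `X` of dimension `i` is defined over `k` and homologically trivial,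
  and its Abel–Jacobi image is zero (for the `p`-adic Abel–Jacobi map: over a finite extension of `K`
  over which `z` is defined) -/
  Triv : ∀ {X}, ℤ → C.Co O X → Prop
  point : finrank ℚ O.H = 0
  deg : ∀ {X} i (z : C.Co O X), Triv i z → C.IsDeg i z
  hom : ∀ {X} i (z : C.Co O X), Triv i z → ∀ ω, C.pb z ω = 0
  /-- the Abel–Jacobi map is functorial -/
  functorial : ∀ {X Y} i r (z : C.Co O X) (f : C.Co X Y), Rat f → C.IsDeg r f → Triv i z →
    Triv (i + r) (C.o f z)
  /-- correspondences of degree `r` change the degree of cohomology classes by `-2 r` -/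
  graded : ∀ {X Y} r (f : C.Co X Y), C.IsDeg r f → ∀ (ω η : HT Y) (l : ℕ),
    (∀ a : ℕ, (a : ℤ) = l + 2 * r → ω a = η a) → C.pb f ω l = C.pb f η l
  /-- the Künneth components of the diagonal are algebraic -/
  kunneth : ∀ X m, ∃ π : C.Co X X, C.IsDeg 0 π ∧ ∀ ω, Part m (C.pb π ω) ω
  /-- (Beauville, Deninger–Murre, and the theorem of Mordell–Weil for the `p`-adic Abel–Jacobi map):
  there is a projector `π` to `H^1(Y)` which is zero on all cycles of positive dimension, and on the
  zero-cycles whose Albanese image is zero -/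
  albanese : ∀ Y, Def Y → ∃ π : C.Co Y Y, C.IsDeg 0 π ∧ (∀ ω, Part 1 (C.pb π ω) ω) ∧
    ∀ i (z : C.Co O Y), (0 < i ∧ C.IsDeg i z) ∨ Triv 0 z → C.o π z = 0
  /-- spreading out and specialization: the composition `κ ∘ Γ` from `X` to `Y` to `X` is
  homologically equivalent to such a composition over `k`, also after the insertion of the
  projectors to `H^1(Y)` and `H^1(Y')` -/
  spread : ∀ {X} Y r (Γ : C.Co X Y) (κ : C.Co Y X), Def X → C.IsDeg (-r) Γ → C.IsDeg r κ →
    ∃ (Y' : AV) (Γ' : C.Co X Y') (κ' : C.Co Y' X), Def Y' ∧ finrank ℚ Y'.H = finrank ℚ Y.H ∧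
      Rat Γ' ∧ C.IsDeg (-r) Γ' ∧ C.IsDeg r κ' ∧ (∀ ω, C.pb Γ' (C.pb κ' ω) = C.pb Γ (C.pb κ ω)) ∧
      ∀ ω φ φ', Part 1 φ (C.pb κ ω) → Part 1 φ' (C.pb κ' ω) → C.pb Γ' φ' = C.pb Γ φ

/-- The Hodge numbers `h^(s, t)` of the Chow motive `(X, p)` with `|s - t| ≥ 2` and `s ≤ c` or `t ≤ c`
are zero. -/
def Small {C : ChowTheory} {X : AV} (p : C.Co X X) (c : ℕ) : Prop :=
  ∀ m s t : ℕ, s + t = m → 2 ≤ |(s : ℤ) - t| → (s ≤ c ∨ t ≤ c) →
    complexify X.per (C.img p m) ⊓ typeForms X.T m s t = ⊥

end Pool.Agent.N178.AJ
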