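import Mathlib
import Pool.Agent.N178.AJ.Defs
import Pool.Agent.N178.GB.Main

/-!
# The injectivity of the Abel–Jacobi map: the proofs
-/

set_option linter.unusedSectionVars false

namespace Pool.Agent.N178.AJ

open Module Pool.Agent.Y90 Pool.Agent.R915 Pool.Agent.N178.BL Pool.Agent.N178.GB
open Pool.Agent.W546.GHC (IsHodgeSubstructure LevelLE complexify typeForms)
open Pool.Agent.N178.HX (Cor GHC)

noncomputable section

variable {C : ChowTheory} {X Y : AV} {c : ℕ}

/-! ### Ranges of a family of correspondences -/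

/-- The compositions `κ ∘ Γ`, where `Γ` belongs to the family `P`. -/
def FacP (X : AV) (P : ∀ (Y : AV) (_ : ℤ), C.Co X Y → Prop) : AddSubgroup (C.Co X X) :=
  AddSubgroup.closure {q | ∃ (Y : AV) (r : ℤ) (Γ : C.Co X Y) (κ : C.Co Y X), P Y r Γ ∧
    C.IsDeg (-r) Γ ∧ C.IsDeg r κ ∧ q = C.o κ Γ}

variable {P : ∀ (Y : AV) (_ : ℤ), C.Co X Y → Prop}

theorem FacP_deg {q : C.Co X X} (hq : q ∈ FacP X P) : C.IsDeg 0 q := by
  unfold FacP at hq
  induction hq using AddSubgroup.closure_induction with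
  | mem q hq =>
    obtain ⟨Y, r, Γ, κ, -, h1, h2, rfl⟩ := hq
    have h3 := C.deg_o Γ κ h1 h2
    rwa [neg_add_cancel] at h3
  | zero => exact deg_zero (C.deg_one X)
  | add a b _ _ ha hb => exact deg_add ha hb
  | neg a _ ha => exact deg_neg' ha

/-- Add one more range. -/
theorem add_rangeP (hP : ∀ (Y : AV) (r : ℤ) (Γ : C.Co X Y) (e : C.Co X X), C.IsDeg 0 e → P Y r Γ →
      P Y r (C.o Γ e)) {q : C.Co X X} (hq : q ∈ FacP X P) {Y : AV} {r : ℤ}
    {Γ : C.Co X Y} (hr : P Y r Γ) (hΓ : C.IsDeg (-r) Γ) :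
    ∃ q' ∈ FacP X P, (∀ v, C.pb q v = v → C.pb q' v = v) ∧
      ∀ ω, C.pb q' (C.pb Γ ω) = C.pb Γ ω := by
  obtain ⟨e, he⟩ : ∃ e, e = C.one X - q := ⟨_, rfl⟩
  have hed : C.IsDeg 0 e := by
    rw [he]
    exact C.deg_sub _ _ (C.deg_one X) (FacP_deg hq)
  have hΓe : C.IsDeg (-r) (C.o Γ e) := by
    have h3 := C.deg_o e Γ hed hΓ
    rwa [zero_add] at h3
  obtain ⟨s, hs, hs'⟩ := C.regular (C.o Γ e) hΓe
  rw [neg_neg] at hs
  have hce : ∀ v, C.pb e v = v - C.pb q v := by
    intro v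
    rw [he, pb_sub, C.pb_one]
  have hes : C.IsDeg r (C.o e s) := by
    have h3 := C.deg_o s e hs hed
    rwa [add_zero] at h3
  refine ⟨q + C.o (C.o e s) (C.o Γ e), AddSubgroup.add_mem _ hq
    (AddSubgroup.subset_closure ⟨Y, r, _, _, hP _ _ _ _ hed hr, hΓe, hes, rfl⟩), fun v hv => ?_,
    fun ω => ?_⟩
  · rw [C.add_pb, C.pb_o, C.pb_o s e, hce v, hv, sub_self, pb_zero, pb_zero, add_zero]
  · have h1 := hs' ω
    rw [C.pb_o, C.pb_o (C.o Γ e) s] at h1
    have h2 : C.pb (C.o Γ e) ω = C.pb Γ ω - C.pb q (C.pb Γ ω) := by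
      have h3 : C.pb (C.o Γ e) ω = C.pb e (C.pb Γ ω) := C.pb_o e Γ ω
      rw [h3, hce]
    rw [C.add_pb, C.pb_o, C.pb_o s e, hce (C.pb Γ ω), ← h2, h1, h2]
    abel

/-- The set of the ranges. -/
abbrev IxP (P : ∀ (Y : AV) (_ : ℤ), C.Co X Y → Prop) : Type _ :=
  Σ' (Y : AV) (r : ℤ) (Γ : C.Co X Y), P Y r Γ ∧ C.IsDeg (-r) Γ

def RgP (i : IxP P) : Submodule ℚ (HT X) := LinearMap.range (pbL i.2.2.1)

theorem exists_fixP (hP : ∀ (Y : AV) (r : ℤ) (Γ : C.Co X Y) (e : C.Co X X), C.IsDeg 0 e → P Y r Γ →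
      P Y r (C.o Γ e)) {U : Submodule ℚ (HT X)} (hU : U.FG) (h : U ≤ ⨆ i : IxP P, RgP i) :
    ∃ q ∈ FacP X P, ∀ v ∈ U, C.pb q v = v := by
  classical
  obtain ⟨t, ht⟩ := CompleteLattice.IsCompactElement.exists_finset_of_le_iSup (Submodule ℚ (HT X))
    ((Submodule.fg_iff_compact U).1 hU) _ h
  have key : ∀ t : Finset (IxP P), ∃ q ∈ FacP X P, ∀ i ∈ t, ∀ ω,
      C.pb q (C.pb i.2.2.1 ω) = C.pb i.2.2.1 ω := by
    intro t
    induction t using Finset.induction_on with
    | empty => exact ⟨0, AddSubgroup.zero_mem _, fun i hi => absurd hi (Finset.notMem_empty _)⟩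
    | insert i t hi ih =>
      obtain ⟨q, hq, h1⟩ := ih
      obtain ⟨q', hq', h2, h3⟩ := add_rangeP hP hq i.2.2.2.1 i.2.2.2.2
      refine ⟨q', hq', fun j hj ω => ?_⟩
      rcases Finset.mem_insert.1 hj with rfl | hj
      · exact h3 ω
      · exact h2 _ (h1 j hj ω)
  obtain ⟨q, hq, h1⟩ := key t
  refine ⟨q, hq, fun v hv => ?_⟩
  have h2 : (⨆ i ∈ t, RgP i) ≤ LinearMap.eqLocus (pbL q) LinearMap.id := by
    refine iSup₂_le fun i hi => ?_
    rintro _ ⟨ω, rfl⟩
    exact h1 i hi ω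
  exact h2 (ht hv)

/-! ### The parts of level one -/

variable {O : AV} (A : AbelJacobi C O)

theorem part_eq {m : ℕ} {φ ψ : HT X} (h : Part m φ ψ) : φ = inc X m (ψ m) := eq_inc h.1 h.2

/-- The correspondences of degree `-k` which factor through a projector to `H^1`. -/
def OneP (X : AV) (k : ℕ) (Y : AV) (r : ℤ) (Γ : C.Co X Y) : Prop :=
  r = k ∧ ∃ (Γ₀ : C.Co X Y) (π : C.Co Y Y), C.IsDeg (-r) Γ₀ ∧ C.IsDeg 0 π ∧
    (∀ ω, Part 1 (C.pb π ω) ω) ∧ Γ = C.o π Γ₀

theorem OneP_o {k : ℕ} (Y : AV) (r : ℤ) (Γ : C.Co X Y) (e : C.Co X X) (he : C.IsDeg 0 e)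
    (h : OneP X k Y r Γ) : OneP X k Y r (C.o Γ e) := by
  obtain ⟨hr, Γ₀, π, h1, h2, h3, rfl⟩ := h
  refine ⟨hr, C.o Γ₀ e, π, ?_, h2, h3, (C.assoc e Γ₀ π).symm⟩
  have h4 := C.deg_o e Γ₀ he h1
  rwa [zero_add] at h4

include A in
theorem one_part (hG : GHC C.alg X) {e : C.Co X X} (he : C.IsDeg 0 e) {k : ℕ}
    (hc : ∀ s t : ℕ, s + t = 1 + 2 * k → 2 ≤ |(s : ℤ) - t| →
      complexify X.per (C.img e (1 + 2 * k)) ⊓ typeForms X.T (1 + 2 * k) s t = ⊥) :
    ∃ q ∈ FacP X (OneP (C := C) X k), ∀ v ∈ C.img e (1 + 2 * k),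
      C.pb q (inc X _ v) = inc X _ v := by
  have hV := C.hodge e he (1 + 2 * k)
  have hL : LevelLE X.per (C.img e (1 + 2 * k)) (1 : ℕ) := by
    intro s t hst hne
    by_contra h
    refine hne (hc s t hst ?_)
    push_cast at h
    omega
  obtain ⟨q, hq, h1⟩ := exists_fixP (P := OneP (C := C) X k) OneP_o
    (U := (C.img e (1 + 2 * k)).map (inc X (1 + 2 * k))) ((finite_img _).map _) (by
      rintro _ ⟨v, hv, rfl⟩
      have h1 := hG 1 k _ hV hL hv
      unfold Cor at h1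
      clear hv
      induction h1 using Submodule.span_induction with
      | mem f hf =>
        obtain ⟨Y, Q, a, b, τ, y, ha, hb, hab, hτ, hfx⟩ := hf
        obtain ⟨Γ, hΓ, h2⟩ := C.classes a b ha hb hab 1 (1 + 2 * k) k rfl τ hτ
        obtain ⟨ω, hω, hω'⟩ := h2 y f hfx
        obtain ⟨π, hπ, hπ'⟩ := A.kunneth Y 1
        have hd : C.IsDeg (-(k : ℤ)) (C.o π Γ) := by
          have h4 := C.deg_o Γ π hΓ hπ
          rwa [add_zero] at h4
        have h3 : inc X (1 + 2 * k) f ∈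
            RgP (⟨Y, k, C.o π Γ, ⟨rfl, Γ, π, hΓ, hπ, hπ', rfl⟩, hd⟩ : IxP (OneP (C := C) X k)) := by
          refine ⟨ω, ?_⟩
          change C.pb (C.o π Γ) ω = _
          rw [C.pb_o]
          refine eq_inc ?_ fun l hl => ?_
          · rw [← hω]
            refine A.graded (-k) Γ hΓ _ _ _ fun a ha => ?_
            obtain rfl : a = 1 := by
              push_cast at ha
              omega
            exact (hπ' ω).1
          · have h5 : C.pb Γ (C.pb π ω) l = C.pb Γ 0 l := by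
              refine A.graded (-k) Γ hΓ _ _ _ fun a ha => ?_
              exact (hπ' ω).2 a (by omega)
            rw [h5, pb_zero]
            rfl
        exact Submodule.mem_iSup_of_mem _ h3
      | zero => rw [map_zero]; exact Submodule.zero_mem _
      | add f g _ _ hf hg => rw [map_add]; exact Submodule.add_mem _ hf hg
      | smul r f _ hf => rw [map_smul]; exact Submodule.smul_mem _ _ hf)
  exact ⟨q, hq, fun v hv => h1 _ ⟨v, hv, rfl⟩⟩

/-! ### Correspondences which kill the cycles -/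

/-- The action on the cohomology is the one of a correspondence which kills the cycles in the kernel
of the Abel–Jacobi map. -/
def Good (c : ℕ) (q : C.Co X X) : Prop :=
  ∃ T : C.Co X X, C.IsDeg 0 T ∧ (∀ ω, C.pb T ω = C.pb q ω) ∧
    ∀ (i : ℤ) (z : C.Co O X), i ≤ c → A.Triv i z → C.o T z = 0

variable {A}

theorem Good.zero : Good A c (0 : C.Co X X) :=
  ⟨0, deg_zero (C.deg_one X), fun _ => rfl, fun _ _ _ _ => zero_o _⟩

theorem Good.add {q q' : C.Co X X} (h : Good A c q) (h' : Good A c q') : Good A c (q + q') := by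
  obtain ⟨T, h1, h2, h3⟩ := h
  obtain ⟨T', h1', h2', h3'⟩ := h'
  refine ⟨T + T', deg_add h1 h1', fun ω => ?_, fun i z hi hz => ?_⟩
  · rw [C.add_pb, C.add_pb, h2, h2']
  · rw [C.add_o, h3 i z hi hz, h3' i z hi hz, add_zero]

theorem neg_pb (q : C.Co X Y) (ω : HT Y) : C.pb (-q) ω = -C.pb q ω := by
  have h := C.add_pb q (-q) ω
  rw [add_neg_cancel, zero_pb] at h
  exact (neg_eq_of_add_eq_zero_right h.symm).symm

theorem Good.neg {q : C.Co X X} (h : Good A c q) : Good A c (-q) := by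
  obtain ⟨T, h1, h2, h3⟩ := h
  refine ⟨-T, deg_neg' h1, fun ω => ?_, fun i z hi hz => ?_⟩
  · rw [neg_pb, neg_pb, h2]
  · rw [neg_o, h3 i z hi hz, neg_zero]

theorem Good.left {q : C.Co X X} (h : Good A c q) {f : C.Co X X} (hf : C.IsDeg 0 f) :
    Good A c (C.o f q) := by
  obtain ⟨T, h1, h2, h3⟩ := h
  refine ⟨C.o f T, ?_, fun ω => ?_, fun i z hi hz => ?_⟩
  · have h4 := C.deg_o T f h1 hf
    rwa [zero_add] at h4
  · rw [C.pb_o, C.pb_o, h2]
  · rw [← C.assoc, h3 i z hi hz, o_zero]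

theorem Good.congr {q q' : C.Co X X} (h : Good A c q) (h' : ∀ ω, C.pb q' ω = C.pb q ω) :
    Good A c q' := by
  obtain ⟨T, h1, h2, h3⟩ := h
  exact ⟨T, h1, fun ω => by rw [h2, h'], h3⟩

theorem good_fac (hX : A.Def X) {q : C.Co X X} (hq : q ∈ BL.Fac C X (c + 1)) : Good A c q := by
  unfold BL.Fac at hq
  induction hq using AddSubgroup.closure_induction with
  | mem q hq =>
    obtain ⟨Y, r, Γ, κ, h1, h2, h3, rfl⟩ := hq
    obtain ⟨Y', Γ', κ', hY, hdim, hΓr, hΓ, hκ, h4, -⟩ := A.spread Y r Γ κ hX h2 h3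
    refine ⟨C.o κ' Γ', ?_, fun ω => ?_, fun i z hi hz => ?_⟩
    · have h5 := C.deg_o Γ' κ' hΓ hκ
      rwa [neg_add_cancel] at h5
    · rw [C.pb_o, C.pb_o, h4]
    · rw [← C.assoc]
      have hd := A.deg i z hz
      have h5 : C.o Γ' z = 0 := by
        rcases h1 with rfl | ⟨-, hY0⟩
        · refine C.deg_neg _ (C.deg_o z Γ' hd hΓ) ?_
          rw [A.point]
          push_cast
          omega
        · refine C.point _ A.point (hdim.trans hY0) fun ω => ?_
          rw [C.pb_o z Γ' ω, A.hom i z hz]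
      rw [h5, o_zero]
  | zero => exact Good.zero
  | add a b _ _ ha hb => exact ha.add hb
  | neg a _ ha => exact ha.neg

theorem good_one (hX : A.Def X) {k : ℕ} {q : C.Co X X} (hq : q ∈ FacP X (OneP (C := C) X k)) :
    Good A c q := by
  unfold FacP at hq
  induction hq using AddSubgroup.closure_induction with
  | mem q hq =>
    obtain ⟨Y, r, Γ, κ, ⟨hr, Γ₀, π, h5, h6, h7, rfl⟩, h2, h3, rfl⟩ := hq
    obtain ⟨Y', Γ', κ', hY, hdim, hΓr, hΓ, hκ, -, h4⟩ := A.spread Y r Γ₀ κ hX h5 h3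
    obtain ⟨π', hπ, hπ', hπ0⟩ := A.albanese Y' hY
    refine ⟨C.o κ' (C.o π' Γ'), ?_, fun ω => ?_, fun i z hi hz => ?_⟩
    · have h8 := C.deg_o _ κ' (C.deg_o Γ' π' hΓ hπ) hκ
      rwa [add_zero, neg_add_cancel] at h8
    · rw [C.pb_o, C.pb_o, C.pb_o, C.pb_o]
      exact h4 ω _ _ (h7 _) (hπ' _)
    · rw [← C.assoc, ← C.assoc]
      have hd := A.deg i z hz
      have h8 : C.o π' (C.o Γ' z) = 0 := by
        rcases lt_trichotomy (i + -r) 0 with h9 | h9 | h9
        · have h10 : C.o Γ' z = 0 := by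
            refine C.deg_neg _ (C.deg_o z Γ' hd hΓ) ?_
            rw [A.point]
            push_cast
            omega
          rw [h10, o_zero]
        · refine hπ0 0 _ (Or.inr ?_)
          have h10 := A.functorial i _ z Γ' hΓr hΓ hz
          rwa [h9] at h10
        · exact hπ0 (i + -r) _ (Or.inl ⟨h9, C.deg_o z Γ' hd hΓ⟩)
      rw [h8, o_zero]
  | zero => exact Good.zero
  | add a b _ _ ha hb => exact ha.add hb
  | neg a _ ha => exact ha.neg

/-- The complexification of zero. -/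
theorem complexify_bot {m : ℕ} :
    complexify X.per (⊥ : Submodule ℚ (X.H [⋀^Fin m]→ₗ[ℚ] ℚ)) = ⊥ := by
  rw [eq_bot_iff]
  intro φ hφ
  obtain ⟨n, a, v, hv, h⟩ := exists_comb hφ
  rw [Submodule.mem_bot]
  refine form_ext fun w => ?_
  rw [h, AlternatingMap.zero_apply]
  refine Finset.sum_eq_zero fun k _ => ?_
  rw [(Submodule.mem_bot ℚ).1 (hv k), AlternatingMap.zero_apply, Rat.cast_zero, mul_zero]

/-- **The injectivity of the Abel–Jacobi map.** -/
theorem main (hG : GHC C.alg X) (hX : A.Def X) {p : C.Co X X} (hp : C.IsMotive p)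
    (hc : Small p c) {i : ℤ} (hi : i ≤ c) {z : C.Co O X} (hz : A.Triv i z) (hpz : C.o p z = z) :
    z = 0 := by
  classical
  choose π hπ hπ' using A.kunneth X
  have hpd := hp.1
  -- the parts
  have hed : ∀ m, C.IsDeg 0 (C.o p (π m)) := fun m => by
    have h1 := C.deg_o _ _ (hπ m) hpd
    rwa [zero_add] at h1
  have hepb : ∀ m ω, C.pb (C.o p (π m)) ω = inc X m (C.pb p ω m) := fun m ω => by
    rw [C.pb_o, part_eq (hπ' m _)]
  have himg : ∀ m, C.img (C.o p (π m)) m ≤ C.img p m := by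
    intro m
    refine Submodule.span_le.2 ?_
    rintro _ ⟨ω, rfl⟩
    rw [hepb, inc_same]
    exact Submodule.subset_span ⟨ω, rfl⟩
  have himg0 : ∀ m l, l ≠ m → C.img (C.o p (π m)) l = ⊥ := by
    intro m l hl
    rw [eq_bot_iff]
    refine Submodule.span_le.2 ?_
    rintro _ ⟨ω, rfl⟩
    rw [hepb, inc_ne hl]
    exact Submodule.zero_mem _
  have hmono : ∀ (m : ℕ) (V W : Submodule ℚ (X.H [⋀^Fin m]→ₗ[ℚ] ℚ)), V ≤ W →
      complexify X.per V ≤ complexify X.per W := by
    intro m V W h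
    refine Submodule.span_mono ?_
    rintro ψ ⟨f, hf, hψ⟩
    exact ⟨f, h hf, hψ⟩
  have hpart : ∀ m, Good A c (C.o p (π m)) := by
    intro m
    by_cases hm : Odd m ∧ m ≤ 2 * c + 1
    · obtain ⟨⟨k, hk⟩, hm⟩ := hm
      obtain rfl : m = 1 + 2 * k := by omega
      obtain ⟨q, hq, h1⟩ := one_part A hG (hed (1 + 2 * k)) (fun s t hst h2 => by
        rw [eq_bot_iff]
        refine le_trans (inf_le_inf_right _ (hmono _ _ _ (himg _))) ?_
        rw [hc _ s t hst h2 (by omega)])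
      refine ((good_one hX hq).left (hed (1 + 2 * k))).congr fun ω => ?_
      rw [C.pb_o q, hepb]
      have h2 := h1 (C.pb p ω (1 + 2 * k)) (by
        have h3 : C.pb p ω (1 + 2 * k) = C.pb (C.o p (π (1 + 2 * k))) ω (1 + 2 * k) := by
          rw [hepb, inc_same]
        rw [h3]
        exact Submodule.subset_span ⟨ω, rfl⟩)
      exact h2.symm
    · obtain ⟨q, hq, h1⟩ := exists_q hG (hed m) (c := c + 1) (fun l s t hst hne h2 => by
        by_cases hl : l = m
        · subst hl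
          rw [eq_bot_iff]
          refine le_trans (inf_le_inf_right _ (hmono _ _ _ (himg _))) ?_
          rw [hc _ s t hst ?_ (by omega)]
          by_contra h3
          have h4 : |(s : ℤ) - t| = 1 := by
            have h5 : (s : ℤ) - t ≠ 0 := by
              intro h6
              apply hne
              omega
            have h6 := abs_pos.2 h5
            omega
          apply hm
          rcases (abs_eq (by norm_num : (0 : ℤ) ≤ 1)).1 h4 with h5 | h5
          · exact ⟨⟨t, by omega⟩, by omega⟩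
          · exact ⟨⟨s, by omega⟩, by omega⟩
        · rw [himg0 m l hl, complexify_bot, bot_inf_eq])
      refine ((good_fac hX hq).left (hed m)).congr fun ω => ?_
      rw [C.pb_o q, h1]
  -- the sum
  have hsum : ∀ s : Finset ℕ, Good A c (∑ m ∈ s, C.o p (π m)) := by
    intro s
    induction s using Finset.induction_on with
    | empty => rw [Finset.sum_empty]; exact Good.zero
    | insert m s hm ih => rw [Finset.sum_insert hm]; exact (hpart m).add ih
  have hspb : ∀ (s : Finset ℕ) (ω : HT X), C.pb (∑ m ∈ s, C.o p (π m)) ω =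
      ∑ m ∈ s, inc X m (C.pb p ω m) := by
    intro s ω
    induction s using Finset.induction_on with
    | empty => rw [Finset.sum_empty, Finset.sum_empty, zero_pb]
    | insert m s hm ih => rw [Finset.sum_insert hm, Finset.sum_insert hm, C.add_pb, ih, hepb]
  obtain ⟨T, hT, hT', hT0⟩ := (hsum (Finset.range (finrank ℚ X.H + 1))).congr (q' := p) fun ω => by
    rw [hspb, ← sum_inc]
  -- nilpotence
  obtain ⟨ν, hν⟩ : ∃ ν, ν = p - T := ⟨_, rfl⟩
  have hνd : C.IsDeg 0 ν := by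
    rw [hν]
    exact C.deg_sub _ _ hpd hT
  obtain ⟨N, hN⟩ := C.nilpotent ν hνd fun ω => by rw [hν, pb_sub, hT', sub_self]
  have h1 : C.o ν z = z := by
    have h2 := C.add_o (p - T) T z
    rw [sub_add_cancel, hT0 i z hi hz, add_zero, hpz] at h2
    rw [hν, ← h2]
  have key : ∀ k : ℕ, C.o ((fun g : C.Co X X => C.o ν g)^[k] (C.one X)) z = z := by
    intro k
    induction k with
    | zero => rw [Function.iterate_zero, id_eq, C.one_o]
    | succ k ih => rw [Function.iterate_succ_apply', ← C.assoc, ih, h1]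
  rw [← key N, hN, zero_o]

end

end Pool.Agent.N178.AJ
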